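import Mathlib

namespace Pool.Agent.Results.MP_4f24d6_pr.No

open MeasureTheory ProbabilityTheory Filter Topology Set
open scoped NNReal ENNReal Real

/-- The graph of `X` over `[0,1]`. -/
def graph (X : ℝ → ℝ) : Set (ℝ × ℝ) := {p | p.1 ∈ Icc (0 : ℝ) 1 ∧ p.2 = X p.1}

/-- The Fourier transform of a measure on the plane. -/
noncomputable def ft (μ : Measure (ℝ × ℝ)) (ξ : ℝ × ℝ) : ℂ :=
  ∫ p, Complex.exp (((-2 * π * (ξ.1 * p.1 + ξ.2 * p.2) : ℝ) : ℂ) * Complex.I) ∂μ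

/-- A nonzero finite measure whose Fourier transform tends to zero at infinity. -/
def IsRajchman (μ : Measure (ℝ × ℝ)) : Prop :=
  μ ≠ 0 ∧ IsFiniteMeasure μ ∧ Tendsto (ft μ) (cocompact (ℝ × ℝ)) (𝓝 0)

lemma dirichlet (n : ℕ) (x : ℕ → ℝ) : ∃ q : ℕ, n ≤ q ∧ q ≤ n * 100 ^ n ∧
    ∀ j < n, ∃ z : ℤ, |q * x j - z| ≤ 1 / 100 := by
  let f : Fin (100 ^ n + 1) → Fin n → Fin 100 := fun i j =>
    ⟨⌊100 * Int.fract ((i : ℕ) * n * x j)⌋₊, by
      rw [Nat.floor_lt (by have := Int.fract_nonneg (((i : ℕ) : ℝ) * n * x j); positivity)]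
      have := Int.fract_lt_one (((i : ℕ) : ℝ) * n * x j)
      push_cast; linarith⟩
  have key : ∀ a b : Fin (100 ^ n + 1), a < b → f a = f b → ∃ q : ℕ, n ≤ q ∧ q ≤ n * 100 ^ n ∧
      ∀ j < n, ∃ z : ℤ, |q * x j - z| ≤ 1 / 100 := by
    intro a b hab h
    have h1 : (a : ℕ) < b := hab
    have h2 := b.2
    refine ⟨n * (b - a), Nat.le_mul_of_pos_right _ (by omega), Nat.mul_le_mul_left _ (by omega),
      fun j hj => ⟨⌊((b : ℕ) : ℝ) * n * x j⌋ - ⌊((a : ℕ) : ℝ) * n * x j⌋, ?_⟩⟩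
    have h3 : ⌊100 * Int.fract (((a : ℕ) : ℝ) * n * x j)⌋₊
        = ⌊100 * Int.fract (((b : ℕ) : ℝ) * n * x j)⌋₊ := congrArg Fin.val (congrFun h ⟨j, hj⟩)
    have a0 := Int.fract_nonneg (((a : ℕ) : ℝ) * n * x j)
    have b0 := Int.fract_nonneg (((b : ℕ) : ℝ) * n * x j)
    have a1 := Nat.floor_le (by positivity : 0 ≤ 100 * Int.fract (((a : ℕ) : ℝ) * n * x j))
    have a2 := Nat.lt_floor_add_one (100 * Int.fract (((a : ℕ) : ℝ) * n * x j))
    have b1 := Nat.floor_le (by positivity : 0 ≤ 100 * Int.fract (((b : ℕ) : ℝ) * n * x j))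
    have b2 := Nat.lt_floor_add_one (100 * Int.fract (((b : ℕ) : ℝ) * n * x j))
    rw [h3] at a1 a2
    have e1 := Int.floor_add_fract (((a : ℕ) : ℝ) * n * x j)
    have e2 := Int.floor_add_fract (((b : ℕ) : ℝ) * n * x j)
    push_cast [Nat.cast_sub h1.le]
    rw [abs_le]; constructor <;> nlinarith
  obtain ⟨a, b, hab, h⟩ := Fintype.exists_ne_map_eq_of_card_lt f (by simp)
  rcases lt_or_gt_of_ne hab with h1 | h1
  · exact key a b h1 h
  · exact key b a h1 h.symm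

lemma cos_near {y : ℝ} {z : ℤ} (h : |y - z| ≤ 1 / 50) : 99 / 100 ≤ Real.cos (2 * π * y) := by
  have e : 2 * π * y = 2 * π * (y - z) + z * (2 * π) := by ring
  rw [e, Real.cos_add_int_mul_two_pi]
  refine le_trans ?_ Real.one_sub_sq_div_two_le_cos
  have h1 : (y - z) ^ 2 ≤ (1 / 50) ^ 2 := by
    rw [← sq_abs]; exact pow_le_pow_left₀ (abs_nonneg _) h 2
  have h2 : π ^ 2 ≤ 10 := by nlinarith [Real.pi_lt_d2, Real.pi_pos]
  have h3 : π ^ 2 * (y - z) ^ 2 ≤ 10 * (1 / 50) ^ 2 :=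
    mul_le_mul h2 h1 (sq_nonneg _) (by norm_num)
  nlinarith

lemma re_ft (μ : Measure (ℝ × ℝ)) [IsFiniteMeasure μ] (ξ : ℝ × ℝ) :
    Integrable (fun p : ℝ × ℝ => Real.cos (2 * π * (ξ.1 * p.1 + ξ.2 * p.2))) μ ∧
    ∫ p, Real.cos (2 * π * (ξ.1 * p.1 + ξ.2 * p.2)) ∂μ ≤ ‖ft μ ξ‖ := by
  refine ⟨Integrable.of_bound (by fun_prop) 1 (ae_of_all _ fun p => Real.abs_cos_le_one _), ?_⟩
  refine le_trans (le_of_eq ?_) (Complex.re_le_norm _)
  have hi : Integrable (fun p : ℝ × ℝ =>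
      Complex.exp (((-2 * π * (ξ.1 * p.1 + ξ.2 * p.2) : ℝ) : ℂ) * Complex.I)) μ :=
    Integrable.of_bound (by fun_prop) 1 (ae_of_all _ fun p => (Complex.norm_exp_ofReal_mul_I _).le)
  have := integral_re hi
  simp only [RCLike.re_to_complex, Complex.exp_ofReal_mul_I_re] at this
  rw [ft, ← this]
  congr 1; ext p
  rw [← Real.cos_neg]; congr 1; ring

/-- Deterministic criterion. -/
lemma no_rajchman (X : ℝ → ℝ) (h : ∀ m : ℕ, ∃ n : ℕ, m ≤ n ∧ 1 ≤ n ∧ ∀ j < n, ∀ t : ℝ,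
    (j + 1 / 100) / n ≤ t → t ≤ (j + 1) / n →
      |X t - X ((j + 1) / n)| ≤ 1 / (100 * (n * 100 ^ n))) :
    ¬ ∃ μ, IsRajchman μ ∧ μ.support ⊆ graph X := by
  rintro ⟨μ, ⟨h0, hfin, hlim⟩, hsupp⟩
  haveI : NeZero μ := ⟨h0⟩
  have hc : 0 < μ.real univ := measureReal_univ_pos
  obtain ⟨K, hK, hK'⟩ := mem_cocompact.1 (hlim (Metric.ball_mem_nhds 0 (by positivity :
    0 < μ.real univ / 32)))
  obtain ⟨R, hR⟩ := hK.isBounded.subset_closedBall 0
  have small : ∀ ξ : ℝ × ℝ, R < ‖ξ‖ → ‖ft μ ξ‖ < μ.real univ / 32 := fun ξ hξ => by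
    have : ξ ∈ Kᶜ := fun h1 => by simpa using not_le.2 hξ (by simpa using hR h1)
    simpa using hK' this
  obtain ⟨m, hm⟩ := exists_nat_gt R
  obtain ⟨n, hmn, hn1, hn⟩ := h m
  obtain ⟨q, hq1, hq2, hq⟩ := dirichlet n fun j => X ((j + 1) / n)
  have n0 : (0 : ℝ) < n := by exact_mod_cast hn1
  have mn : (m : ℝ) ≤ n := by exact_mod_cast hmn
  have nq : (n : ℝ) ≤ q := by exact_mod_cast hq1
  have qQ : (q : ℝ) ≤ n * 100 ^ n := by exact_mod_cast hq2
  obtain ⟨i1, j1⟩ := re_ft μ (0, q)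
  obtain ⟨i2, j2⟩ := re_ft μ (n, 0)
  obtain ⟨i3, j3⟩ := re_ft μ (2 * n, 0)
  have s1 := small (0, q) (by simp; linarith)
  have s2 := small (n, 0) (by simp; linarith)
  have s3 := small (2 * n, 0) (by simp; linarith)
  have pt : ∀ᵐ p ∂μ, (1 / 8 : ℝ) ≤ Real.cos (2 * π * ((0 : ℝ) * p.1 + q * p.2))
      + Real.cos (2 * π * (n * p.1 + 0 * p.2))
      + 1 / 4 * Real.cos (2 * π * (2 * n * p.1 + 0 * p.2)) := by
    filter_upwards [μ.support_mem_ae] with p hp
    obtain ⟨⟨t0, t1⟩, hy⟩ := hsupp hp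
    simp only [zero_mul, zero_add, add_zero]
    have f0 := Int.fract_nonneg (n * p.1)
    have f1 := Int.fract_lt_one (n * p.1)
    have f2 := Int.floor_add_fract (n * p.1)
    by_cases hx : Int.fract (n * p.1) ≤ 1 / 100
    · have c1 := cos_near (y := n * p.1) (z := ⌊n * p.1⌋) (by rw [abs_le]; constructor <;> linarith)
      have c2 := cos_near (y := 2 * n * p.1) (z := 2 * ⌊n * p.1⌋)
        (by push_cast; rw [abs_le]; constructor <;> linarith)
      linarith [Real.neg_one_le_cos (2 * π * (q * p.2))]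
    · push Not at hx
      have g0 : 0 ≤ ⌊n * p.1⌋ := Int.floor_nonneg.2 (by positivity)
      obtain ⟨j, hj⟩ := Int.eq_ofNat_of_zero_le g0
      rw [hj, Int.cast_natCast] at f2
      have jn : j < n := by
        have : (j : ℝ) < n := by nlinarith
        exact_mod_cast this
      have d1 := hn j jn p.1 (by rw [div_le_iff₀ n0]; linarith) (by rw [le_div_iff₀ n0]; linarith)
      obtain ⟨z, hz⟩ := hq j jn
      have d2 : |q * (X p.1 - X ((j + 1) / n))| ≤ 1 / 100 := by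
        rw [abs_mul, abs_of_nonneg (by positivity : (0 : ℝ) ≤ q)]
        refine (mul_le_mul qQ d1 (abs_nonneg _) (by positivity)).trans (le_of_eq ?_)
        field_simp
      have c1 := cos_near (y := q * p.2) (z := z) (by
        rw [hy]; rw [abs_le] at hz d2 ⊢; constructor <;> linarith [hz.1, hz.2, d2.1, d2.2])
      have c2 : Real.cos (2 * π * (2 * n * p.1)) = 2 * Real.cos (2 * π * (n * p.1)) ^ 2 - 1 := by
        rw [← Real.cos_two_mul]; congr 1; ring
      rw [c2]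
      nlinarith [sq_nonneg (Real.cos (2 * π * (n * p.1)) + 1)]
  have h1 := integral_mono_ae (integrable_const _) ((i1.add i2).add (i3.const_mul (1 / 4))) pt
  rw [integral_add' (i1.add i2) (i3.const_mul _), integral_add' i1 i2, integral_const_mul,
    integral_const, smul_eq_mul] at h1
  linarith

/-- Staircase reparametrisation. -/
noncomputable def stair (n : ℕ) (t : ℝ) : ℝ :=
  t + (min (100 * Int.fract (n * t)) 1 - Int.fract (n * t)) / n

lemma stair_cont (n : ℕ) : Continuous (stair n) := by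
  have h : Continuous ((fun x : ℝ => min (100 * x) 1 - x) ∘ Int.fract) :=
    ContinuousOn.comp_fract'' (by fun_prop) (by norm_num)
  exact continuous_id.add ((h.comp (continuous_const.mul continuous_id)).div_const _)

lemma stair_eq {n : ℕ} (hn : 1 ≤ n) (t : ℝ) :
    stair n t = (⌊n * t⌋ + min (100 * Int.fract (n * t)) 1) / n := by
  have n0 : (0 : ℝ) < n := by exact_mod_cast hn
  have := Int.floor_add_fract (n * t)
  rw [stair, eq_div_iff n0.ne', add_mul, div_mul_cancel₀ _ n0.ne']; linarith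

lemma stair_mono {n : ℕ} (hn : 1 ≤ n) : Monotone (stair n) := by
  intro s t hst
  have n0 : (0 : ℝ) < n := by exact_mod_cast hn
  rw [stair_eq hn, stair_eq hn, div_le_div_iff_of_pos_right n0]
  have h1 : (n : ℝ) * s ≤ n * t := by gcongr
  rcases (Int.floor_mono h1).eq_or_lt with h | h
  · have e1 := Int.floor_add_fract (n * s)
    have e2 := Int.floor_add_fract (n * t)
    rw [h] at e1 ⊢
    exact add_le_add_right (min_le_min_right _ (by linarith)) _
  · have h2 : ((⌊n * s⌋ : ℤ) : ℝ) + 1 ≤ ⌊n * t⌋ := by exact_mod_cast h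
    have h3 := min_le_right (100 * Int.fract (n * s)) 1
    have h4 : 0 ≤ min (100 * Int.fract (n * t)) 1 :=
      le_min (by have := Int.fract_nonneg (n * t); positivity) zero_le_one
    linarith

lemma stair_close {n : ℕ} (hn : 1 ≤ n) (t : ℝ) : |stair n t - t| ≤ 1 / n := by
  have n0 : (0 : ℝ) < n := by exact_mod_cast hn
  have f0 := Int.fract_nonneg (n * t)
  have f1 := Int.fract_lt_one (n * t)
  rw [stair, add_sub_cancel_left, abs_div, abs_of_pos n0, div_le_div_iff_of_pos_right n0, abs_le]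
  constructor
  · have : 0 ≤ min (100 * Int.fract (n * t)) 1 := le_min (by positivity) zero_le_one
    linarith
  · linarith [min_le_right (100 * Int.fract (n * t)) 1]

lemma stair_gap {n : ℕ} (hn : 1 ≤ n) (j : ℕ) :
    stair n ((j + 1) / n) = stair n ((j + 1 / 100) / n) := by
  have n0 : (0 : ℝ) < n := by exact_mod_cast hn
  rw [stair_eq hn, stair_eq hn, mul_div_cancel₀ _ n0.ne', mul_div_cancel₀ _ n0.ne']
  have e1 : ⌊(j : ℝ) + 1 / 100⌋ = j := by
    rw [Int.floor_eq_iff]; push_cast; constructor <;> linarith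
  have e2 : Int.fract ((j : ℝ) + 1 / 100) = 1 / 100 := by
    rw [Int.fract, e1]; push_cast; ring
  rw [e1, e2]; norm_num

lemma exists_V (ε : ℕ → ℝ) (hε : ∀ n, 0 < ε n) : ∃ V : ℝ → ℝ, Continuous V ∧ Monotone V ∧
    StrictMonoOn V (Icc 0 1) ∧ (∀ t, V t ∈ Icc (0 : ℝ) 1) ∧
    ∀ m : ℕ, ∃ n : ℕ, m ≤ n ∧ 1 ≤ n ∧ ∀ j < n, V ((j + 1) / n) - V ((j + 1 / 100) / n) < ε n := by
  let S : Set C(Icc (0 : ℝ) 1, ℝ) := {f | Monotone f ∧ ∀ t, f t ∈ Icc (0 : ℝ) 1}
  have hS : IsClosed S := by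
    have : S = (⋂ s, ⋂ t, ⋂ (_ : s ≤ t), {f : C(Icc (0 : ℝ) 1, ℝ) | f s ≤ f t})
        ∩ ⋂ t, {f | f t ∈ Icc (0 : ℝ) 1} := by
      ext f; simp only [S, Monotone, mem_inter_iff, mem_iInter, mem_setOf_eq]
    rw [this]
    exact (isClosed_iInter fun s => isClosed_iInter fun t => isClosed_iInter fun _ =>
      isClosed_le (by fun_prop) (by fun_prop)).inter
      (isClosed_iInter fun t => isClosed_Icc.preimage (by fun_prop))
  haveI : CompleteSpace S := hS.completeSpace_coe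
  haveI : Nonempty S := ⟨⟨0, monotone_const, fun _ => by simp⟩⟩
  let pr : ℝ → Icc (0 : ℝ) 1 := projIcc 0 1 zero_le_one
  have prc : Continuous pr := continuous_projIcc
  have prm : Monotone pr := monotone_projIcc _
  have ev : ∀ t, Continuous fun f : S => f.1 t := fun t => by fun_prop
  let A : ℚ × ℚ → Set S := fun pq => {f | pr pq.1 < pr pq.2 → f.1 (pr pq.1) < f.1 (pr pq.2)}
  let D : ℕ → Set S := fun m => ⋃ n, ⋃ (_ : m ≤ n ∧ 1 ≤ n), ⋂ j ∈ Finset.range n,
    {f | f.1 (pr ((j + 1) / n)) - f.1 (pr ((j + 1 / 100) / n)) < ε n}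
  have Ao : ∀ pq, IsOpen (A pq) := fun pq => by
    by_cases h : pr pq.1 < pr pq.2
    · simp only [A, h, forall_true_left]; exact isOpen_lt (ev _) (ev _)
    · simp [A, h]
  have Do : ∀ m, IsOpen (D m) := fun m => isOpen_iUnion fun n => isOpen_iUnion fun _ =>
    isOpen_biInter_finset fun j _ => isOpen_lt ((ev _).sub (ev _)) continuous_const
  have Ad : ∀ pq, Dense (A pq) := fun pq => by
    rw [Metric.dense_iff]
    intro f r hr
    obtain ⟨s, s0, s1, s2⟩ : ∃ s : ℝ, 0 < s ∧ s ≤ 1 ∧ s < r :=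
      ⟨min 1 (r / 2), by positivity, min_le_left _ _, (min_le_right _ _).trans_lt (by linarith)⟩
    let g : C(Icc (0 : ℝ) 1, ℝ) := ⟨fun t => (1 - s) * f.1 t + s * t, by fun_prop⟩
    have gs : StrictMono g := fun a b hab => by
      have h1 := f.2.1 hab.le
      have h2 : (a : ℝ) < b := hab
      show (1 - s) * f.1 a + s * a < (1 - s) * f.1 b + s * b
      nlinarith
    refine ⟨⟨g, gs.monotone, fun t => ?_⟩, ?_, fun h => gs h⟩
    · have h1 := f.2.2 t
      show (1 - s) * f.1 t + s * t ∈ _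
      constructor <;> nlinarith [h1.1, h1.2, t.2.1, t.2.2]
    · refine lt_of_le_of_lt ((ContinuousMap.dist_le s0.le).2 fun t => ?_) s2
      have h1 := f.2.2 t
      show dist ((1 - s) * f.1 t + s * t) (f.1 t) ≤ s
      rw [Real.dist_eq, abs_le]
      constructor <;> nlinarith [h1.1, h1.2, t.2.1, t.2.2]
  have Dd : ∀ m, Dense (D m) := fun m => by
    rw [Metric.dense_iff]
    intro f r hr
    obtain ⟨d, d0, hd⟩ := Metric.uniformContinuous_iff.1
      (CompactSpace.uniformContinuous_of_continuous f.1.continuous) (r / 2) (half_pos hr)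
    obtain ⟨k, hk⟩ := exists_nat_one_div_lt d0
    set n := m + k + 1 with hn
    have n1 : 1 ≤ n := by omega
    let g : C(Icc (0 : ℝ) 1, ℝ) := ⟨fun t => f.1 (pr (stair n t)),
      f.1.continuous.comp (prc.comp ((stair_cont n).comp continuous_subtype_val))⟩
    refine ⟨⟨g, fun a b hab => f.2.1 (prm (stair_mono n1 hab)), fun t => f.2.2 _⟩, ?_, ?_⟩
    · show dist g f.1 < r
      refine lt_of_le_of_lt ((ContinuousMap.dist_le (half_pos hr).le).2 fun t =>
        (hd (a := pr (stair n t)) (b := t) ?_).le) (half_lt_self hr)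
      have h1 : dist (pr (stair n t)) (pr t) ≤ dist (stair n t) t := by
        have := (LipschitzWith.projIcc (zero_le_one' ℝ)).dist_le_mul (stair n t) t
        rwa [NNReal.coe_one, one_mul] at this
      have h2 : pr t = t := projIcc_val _ t
      rw [h2] at h1
      refine (h1.trans (stair_close n1 t)).trans_lt (lt_of_le_of_lt ?_ hk)
      exact one_div_le_one_div_of_le (by positivity) (by rw [hn]; push_cast; linarith [m.cast_nonneg (α := ℝ)])
    · refine mem_iUnion₂.2 ⟨n, ⟨by omega, n1⟩, mem_iInter₂.2 fun j hj => ?_⟩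
      have n0 : (0 : ℝ) < n := by exact_mod_cast n1
      have hj' : (j : ℝ) + 1 ≤ n := by exact_mod_cast Finset.mem_range.1 hj
      have e1 : (pr ((j + 1) / n) : ℝ) = (j + 1) / n :=
        congrArg Subtype.val (projIcc_of_mem _ ⟨by positivity, (div_le_one n0).2 hj'⟩)
      have e2 : (pr ((j + 1 / 100) / n) : ℝ) = (j + 1 / 100) / n :=
        congrArg Subtype.val (projIcc_of_mem _ ⟨by positivity, (div_le_one n0).2 (by linarith)⟩)
      show f.1 (pr (stair n (pr ((j + 1) / n)))) - f.1 (pr (stair n (pr ((j + 1 / 100) / n)))) < _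
      rw [e1, e2, stair_gap n1, sub_self]; exact hε n
  obtain ⟨f, hA, hD⟩ := (Dense.inter_of_Gδ (.iInter_of_isOpen Ao) (.iInter_of_isOpen Do)
    (dense_iInter_of_isOpen Ao Ad) (dense_iInter_of_isOpen Do Dd)).nonempty
  refine ⟨fun t => f.1 (pr t), f.1.continuous.comp prc, f.2.1.comp prm, fun s hs t ht hst => ?_,
    fun t => f.2.2 _, fun m => ?_⟩
  · obtain ⟨p, p1, p2⟩ := exists_rat_btwn hst
    obtain ⟨q, q1, q2⟩ := exists_rat_btwn p2
    have h1 := mem_iInter.1 hA (p, q) (by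
      show pr p < pr q
      exact strictMonoOn_projIcc _ ⟨by linarith [hs.1], by linarith [ht.2]⟩
        ⟨by linarith [hs.1], by linarith [ht.2]⟩ q1)
    exact ((f.2.1 (prm p1.le)).trans_lt h1).trans_le (f.2.1 (prm q2.le))
  · obtain ⟨n, hn, h⟩ := mem_iUnion₂.1 (mem_iInter.1 hD m)
    exact ⟨n, hn.1, hn.2, fun j hj => mem_iInter₂.1 h j (Finset.mem_range.2 hj)⟩

lemma modulus {Ω : Type*} [MeasurableSpace Ω] (P : Measure Ω) [IsFiniteMeasure P]
    (Z : ℝ → Ω → ℝ) (hm : ∀ t, AEMeasurable (Z t) P) (hc : ∀ᵐ ω ∂P, Continuous (Z · ω))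
    (δ : ℕ → ℝ) (hδ : ∀ n, 0 < δ n) : ∃ ε : ℕ → ℝ, (∀ n, 0 < ε n) ∧ ∀ᵐ ω ∂P, ∀ᶠ n in atTop,
      ∀ s ∈ Icc (0 : ℝ) 1, ∀ t ∈ Icc (0 : ℝ) 1, |s - t| < ε n → |Z s ω - Z t ω| ≤ δ n := by
  let d := TopologicalSpace.denseSeq (Icc (0 : ℝ) 1 × Icc (0 : ℝ) 1)
  let E : ℝ → ℕ → Set Ω := fun c k => ⋃ i, ⋃ (_ : |((d i).1 : ℝ) - (d i).2| < 1 / ((k : ℝ) + 1)),
    {ω | c < |Z (d i).1 ω - Z (d i).2 ω|}
  have h1 : ∀ n : ℕ, ∃ k, P (E (δ n) k) ≤ 2⁻¹ ^ n := by
    intro n
    have h2 := tendsto_measure_iInter_atTop (μ := P) (s := E (δ n))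
      (fun k => .iUnion fun i => .iUnion fun _ => nullMeasurableSet_lt aemeasurable_const
        (continuous_abs.measurable.comp_aemeasurable ((hm _).sub (hm _))))
      (fun k l hkl => iUnion_mono fun i => iUnion_subset fun h => subset_iUnion_of_subset
        (h.trans_le (Nat.one_div_le_one_div hkl)) subset_rfl) ⟨0, measure_ne_top _ _⟩
    have h3 : P (⋂ k, E (δ n) k) = 0 := by
      rw [measure_eq_zero_iff_ae_notMem]
      filter_upwards [hc] with ω hω h
      obtain ⟨r, r0, hr⟩ := Metric.uniformContinuousOn_iff.1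
        (isCompact_Icc.uniformContinuousOn_of_continuous (s := Icc (0 : ℝ) 1) hω.continuousOn)
        (δ n) (hδ n)
      obtain ⟨k, hk⟩ := exists_nat_one_div_lt r0
      obtain ⟨i, a1, a2⟩ := mem_iUnion₂.1 (mem_iInter.1 h k)
      exact lt_asymm a2 (hr _ (d i).1.2 _ (d i).2.2 (a1.trans hk))
    rw [h3] at h2
    exact (h2.eventually (eventually_le_nhds (ENNReal.pow_pos (by simp) n))).exists
  choose k hk using h1
  refine ⟨fun n => 1 / ((k n : ℝ) + 1), fun n => by positivity, ?_⟩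
  have h4 : ∑' n, P (E (δ n) (k n)) ≠ ∞ :=
    ne_top_of_le_ne_top (by simp [ENNReal.tsum_geometric]) (ENNReal.tsum_le_tsum hk)
  filter_upwards [ae_eventually_notMem h4, hc] with ω h5 hω
  filter_upwards [h5] with n hn s hs t ht hst
  by_contra hlt
  push Not at hlt
  have ho : IsOpen {p : Icc (0 : ℝ) 1 × Icc (0 : ℝ) 1 | |(p.1 : ℝ) - p.2| < 1 / ((k n : ℝ) + 1) ∧
      δ n < |Z p.1 ω - Z p.2 ω|} := by
    refine IsOpen.and (isOpen_lt (by fun_prop) continuous_const) (isOpen_lt continuous_const ?_)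
    exact ((hω.comp (by fun_prop)).sub (hω.comp (by fun_prop))).abs
  obtain ⟨i, a1, a2⟩ := (TopologicalSpace.denseRange_denseSeq _).exists_mem_open ho
    ⟨(⟨s, hs⟩, ⟨t, ht⟩), hst, hlt⟩
  exact hn (mem_iUnion₂.2 ⟨i, a1, a2⟩)

theorem result {Ω : Type} [MeasurableSpace Ω] (P : Measure Ω) [IsProbabilityMeasure P]
    (B : ℝ≥0 → Ω → ℝ) (hB : IsBrownianReal B P) :
    ∃ V : ℝ → ℝ≥0, ContinuousOn V (Icc 0 1) ∧ StrictMonoOn V (Icc 0 1) ∧
      ∀ᵐ ω ∂P, ¬ ∃ μ, IsRajchman μ ∧ μ.support ⊆ graph (fun t => B (V t) ω) := by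
  obtain ⟨ε, hε, h⟩ := modulus P (fun t => B t.toNNReal)
    (fun t => hB.toIsPreBrownianReal.aemeasurable _)
    (hB.cont.mono fun ω hω => hω.comp continuous_real_toNNReal)
    (fun n => 1 / (100 * ((n : ℝ) * 100 ^ n) + 1)) (fun n => by positivity)
  obtain ⟨V, h1, h2, h3, h4, h5⟩ := exists_V ε hε
  refine ⟨fun t => (V t).toNNReal, (continuous_real_toNNReal.comp h1).continuousOn,
    fun s hs t ht hst => (Real.toNNReal_lt_toNNReal_iff_of_nonneg (h4 s).1).2 (h3 hs ht hst), ?_⟩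
  filter_upwards [h] with ω hω
  obtain ⟨N, hN⟩ := eventually_atTop.1 hω
  refine no_rajchman _ fun m => ?_
  obtain ⟨n, a1, a2, a3⟩ := h5 (m + N)
  refine ⟨n, by omega, a2, fun j hj t t1 t2 => ?_⟩
  have n0 : (0 : ℝ) < n := by exact_mod_cast a2
  refine (hN n (by omega) _ (h4 t) _ (h4 _) ?_).trans
    (one_div_le_one_div_of_le (by positivity) (by linarith))
  have b1 := h2 t1
  have b2 := h2 t2
  have b3 := a3 j hj
  rw [abs_lt]; constructor <;> linarith [hε n]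

end Pool.Agent.Results.MP_4f24d6_pr.No
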